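import Pool.Agent.Helper16.VGG.G21

/-!
MP_586e8d_co, Q1 (Shermer). Every polygon with `n` vertices and `h` holes can be guarded by a set
of at most `⌊(n+h)/3⌋` of its vertices.
-/

set_option autoImplicit false

open Pool.Agent.AG

namespace Pool.Agent.Results.MP_586e8d_co.VertexGuards

/-- Every polygon with holes is guarded by a set of at most `⌊(n+h)/3⌋` of its vertices, where `n`
is the number of all vertices and `h` the number of holes. -/
theorem result : ∀ P : PolygonWithHoles,
    ∃ G : Finset (ℝ × ℝ), (∀ g ∈ G, P.IsVertex g) ∧ G.card ≤ (P.n + P.h) / 3 ∧ P.Guards G :=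
  fun P => AG.guards P

end Pool.Agent.Results.MP_586e8d_co.VertexGuards
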